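import Pool.Agent.H24.SCG2.Stmts3

/-!
Project SCG2, module CEX: the parameter of the family for `PGL(3,q).2`.
-/

namespace Pool.Agent.H52.SCG2

open Matrix Pool.SCG

/-- the algebraic part -/
theorem cex_aux (F : Type) [Field F] [Finite F] (hSQO : SQOStmt) (h2 : (2 : F) ≠ 0)
    (h3 : (3 : F) ≠ 0) (hsq : ¬ IsSquare (Nat.card F)) (w c0 c s : F) (hw : w ^ 2 + w + 1 = 0)
    (hc0 : ∀ x : F, x ≠ 0 → ∃ n : ℕ, c0 ^ n = x) (hc00 : c0 ≠ 0)
    (hcc : c = c0 ∨ c = - c0 ∨ c = - c0 ^ 2) (hcub : ∀ y : F, y ^ 3 ≠ c)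
    (hN : c ^ 2 - c + 1 = s ^ 2) (hN0 : c ^ 2 - c + 1 ≠ 0) : ParC (c - 1 + s) w := by
  have hc : c ≠ 0 := by
    rcases hcc with h | h | h
    · rw [h]; exact hc00
    · rw [h]; exact neg_ne_zero.2 hc00
    · rw [h]; exact neg_ne_zero.2 (pow_ne_zero _ hc00)
  have hc1 : c ≠ 1 := fun h => hcub 1 (by rw [h]; ring)
  have hcm : c ≠ -1 := fun h => hcub (-1) (by rw [h]; ring)
  obtain ⟨τ, hτ⟩ : ∃ τ : F, τ = c - 1 + s := ⟨_, rfl⟩
  rw [← hτ]
  have key : τ * (τ + 2) = c * (2 * τ + 1) := by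
    have : s = τ - (c - 1) := by rw [hτ]; ring
    rw [this] at hN
    linear_combination - hN
  have t0 : τ ≠ 0 := by
    intro h
    rw [h] at key
    apply hc
    linear_combination - key
  have t2 : τ + 2 ≠ 0 := by
    intro h
    have h' : τ = -2 := by linear_combination h
    rw [h'] at key
    have : c * 3 = 0 := by linear_combination key
    rcases mul_eq_zero.1 this with h | h
    · exact hc h
    · exact h3 h
  have t3 : 2 * τ + 1 ≠ 0 := by
    intro h
    rw [h, mul_zero] at key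
    rcases mul_eq_zero.1 key with h | h
    · exact t0 h
    · exact t2 h
  have nc : ∀ y : F, y ^ 3 * (2 * τ + 1) ≠ τ * (τ + 2) := by
    intro y h
    rw [key] at h
    exact hcub y (mul_right_cancel₀ t3 h)
  have t1 : τ ^ 2 ≠ 1 := by
    intro h
    have h1 : (τ - 1) * (τ + 1) = 0 := by linear_combination h
    rcases mul_eq_zero.1 h1 with h | h
    · have h' : τ = 1 := by linear_combination h
      rw [h'] at key
      have : (c - 1) * 3 = 0 := by linear_combination - key
      rcases mul_eq_zero.1 this with h | h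
      · exact hc1 (by linear_combination h)
      · exact h3 h
    · have h' : τ = -1 := by linear_combination h
      rw [h'] at key
      exact hc1 (by linear_combination key)
  have t4 : τ ^ 2 + τ + 1 ≠ 0 := by
    intro h
    have h1 : τ * (1 - 2 * c) = c + 1 := by linear_combination key - h
    have h4 : 3 * (c ^ 2 - c + 1) = 0 := by
      have : (1 - 2 * c) ^ 2 * (τ ^ 2 + τ + 1) = 0 := by rw [h, mul_zero]
      have e : (1 - 2 * c) ^ 2 * (τ ^ 2 + τ + 1) = (τ * (1 - 2 * c)) ^ 2 +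
        (τ * (1 - 2 * c)) * (1 - 2 * c) + (1 - 2 * c) ^ 2 := by ring
      rw [e, h1] at this
      linear_combination this
    rcases mul_eq_zero.1 h4 with h | h
    · exact h3 h
    · exact hN0 h
  have t5 : τ ^ 2 + 4 * τ + 1 ≠ 0 := by
    intro h
    have h1 : (c + 1) * (2 * τ + 1) = 0 := by linear_combination h - key
    rcases mul_eq_zero.1 h1 with h | h
    · exact hcm (by linear_combination h)
    · exact t3 h
  refine ⟨hw, t0, t1, t2, t3, t4, t5, nc, ?_⟩
  intro F0 hF0
  have hcF : c ∈ F0 := by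
    have e : c = τ * (τ + 2) / (2 * τ + 1) := by
      rw [key, mul_div_cancel_right₀ _ t3]
    rw [e]
    have i2 : (2 : F) ∈ F0 := by
      have := F0.add_mem F0.one_mem F0.one_mem
      rwa [one_add_one_eq_two] at this
    exact F0.div_mem (F0.mul_mem hF0 (F0.add_mem hF0 i2))
      (F0.add_mem (F0.mul_mem i2 hF0) F0.one_mem)
  have hc0F : c0 ∈ F0 := by
    rcases hcc with h | h | h
    · rw [← h]; exact hcF
    · have : c0 = - c := by rw [h, neg_neg]
      rw [this]
      exact F0.neg_mem hcF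
    · apply hSQO F h2 hsq F0
      have : c0 ^ 2 = - c := by rw [h, neg_neg]
      rw [this]
      exact F0.neg_mem hcF
  rw [eq_top_iff]
  intro x _
  by_cases hx : x = 0
  · rw [hx]; exact F0.zero_mem
  · obtain ⟨n, rfl⟩ := hc0 x hx
    exact F0.pow_mem hc0F n

theorem cex_thm (hSQO : SQOStmt) (hPAR : PARStmt) : CEXStmt := by
  intro F _ _ hodd h7
  obtain ⟨p, -, -, -, h2, h3, -⟩ := hPAR F hodd
  obtain ⟨h6, hsq⟩ := hodd
  classical
  obtain ⟨g, hg⟩ := IsCyclic.exists_generator (α := Fˣ)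
  have hord : orderOf g = Nat.card F - 1 := by
    rw [orderOf_eq_card_of_forall_mem_zpowers hg, Nat.card_units]
  have hq : 7 < Nat.card F := by
    have : 1 < Nat.card F := Finite.one_lt_card
    omega
  have hg6 : g ^ 6 ≠ 1 := by
    intro h
    have := orderOf_dvd_of_pow_eq_one h
    have := Nat.le_of_dvd (by norm_num) this
    omega
  have hgc : ∀ y : Fˣ, y ^ 3 ≠ g := by
    intro y hy
    have h1 : g ^ ((Nat.card F - 1) / 3) = 1 := by
      rw [← hy, ← pow_mul]
      have : 3 * ((Nat.card F - 1) / 3) = Nat.card F - 1 := by omega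
      rw [this, ← Nat.card_units, pow_card_eq_one']
    have := orderOf_dvd_of_pow_eq_one h1
    have := Nat.le_of_dvd (by omega) this
    omega
  set c0 : F := (g : F) with hc0
  have hc00 : c0 ≠ 0 := g.ne_zero
  have hgen : ∀ x : F, x ≠ 0 → ∃ n : ℕ, c0 ^ n = x := by
    intro x hx
    obtain ⟨n, hn⟩ : ∃ n : ℕ, g ^ n = Units.mk0 x hx := by
      have := hg (Units.mk0 x hx)
      rw [← mem_powers_iff_mem_zpowers] at this
      exact this
    refine ⟨n, ?_⟩
    have := congrArg (fun u : Fˣ => (u : F)) hn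
    simpa using this
  have hc06 : c0 ^ 6 ≠ 1 := by
    intro h
    apply hg6
    apply Units.ext
    rw [Units.val_pow_eq_pow_val, Units.val_one]
    exact h
  have hcub0 : ∀ y : F, y ^ 3 ≠ c0 := by
    intro y hy
    have hy0 : y ≠ 0 := by
      rintro rfl
      apply hc00
      rw [← hy]
      ring
    apply hgc (Units.mk0 y hy0)
    apply Units.ext
    rw [Units.val_pow_eq_pow_val]
    exact hy
  -- the cube root of unity
  obtain ⟨w, hw⟩ : ∃ w : F, w ^ 2 + w + 1 = 0 := by
    refine ⟨c0 ^ ((Nat.card F - 1) / 3), ?_⟩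
    set v : F := c0 ^ ((Nat.card F - 1) / 3) with hv
    have h1 : v ^ 3 = 1 := by
      rw [hv, ← pow_mul]
      have : (Nat.card F - 1) / 3 * 3 = Nat.card F - 1 := by omega
      rw [this, ← hord, hc0, ← Units.val_pow_eq_pow_val, pow_orderOf_eq_one, Units.val_one]
    have hne : v ≠ 1 := by
      intro h
      have h1 : g ^ ((Nat.card F - 1) / 3) = 1 := by
        apply Units.ext
        rw [Units.val_pow_eq_pow_val, Units.val_one]
        exact h
      have := orderOf_dvd_of_pow_eq_one h1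
      have := Nat.le_of_dvd (by omega) this
      omega
    have : (v - 1) * (v ^ 2 + v + 1) = 0 := by linear_combination h1
    rcases mul_eq_zero.1 this with h | h
    · exact absurd (by linear_combination h) hne
    · exact h
  -- squares
  have hprod : (c0 ^ 2 - c0 + 1) * ((-c0) ^ 2 - (-c0) + 1) =
      (-c0 ^ 2) ^ 2 - (- c0 ^ 2) + 1 := by ring
  have hsqr : IsSquare (c0 ^ 2 - c0 + 1) ∨ IsSquare ((-c0) ^ 2 - (-c0) + 1) ∨
      IsSquare ((-c0 ^ 2) ^ 2 - (- c0 ^ 2) + 1) := by
    by_cases h1 : IsSquare (c0 ^ 2 - c0 + 1)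
    · exact Or.inl h1
    by_cases h2' : IsSquare ((-c0) ^ 2 - (-c0) + 1)
    · exact Or.inr (Or.inl h2')
    right; right
    rw [← hprod]
    have hodd : ∀ x : F, ¬ IsSquare x → ∃ k : ℕ, x = c0 ^ (2 * k + 1) := by
      intro x hx
      have hx0 : x ≠ 0 := by
        rintro rfl
        exact hx ⟨0, by ring⟩
      obtain ⟨n, rfl⟩ := hgen x hx0
      rcases Nat.even_or_odd' n with ⟨k, hk | hk⟩
      · exact absurd ⟨c0 ^ k, by rw [hk]; ring⟩ hx
      · exact ⟨k, by rw [hk]⟩
    obtain ⟨k, hk⟩ := hodd _ h1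
    obtain ⟨l, hl⟩ := hodd _ h2'
    rw [hk, hl]
    exact ⟨c0 ^ (k + l + 1), by ring⟩
  have hNz : ∀ c : F, (c = c0 ∨ c = - c0 ∨ c = - c0 ^ 2) → c ^ 2 - c + 1 ≠ 0 := by
    intro c hcc h
    have h3' : c ^ 3 = -1 := by linear_combination (c + 1) * h
    apply hc06
    rcases hcc with rfl | rfl | rfl
    · linear_combination (c0 ^ 3 - 1) * h3'
    · linear_combination (-c0 ^ 3 - 1) * h3'
    · linear_combination - h3'
  have hcub : ∀ c : F, (c = c0 ∨ c = - c0 ∨ c = - c0 ^ 2) → ∀ y : F, y ^ 3 ≠ c := by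
    intro c hcc y hy
    rcases hcc with rfl | rfl | rfl
    · exact hcub0 y hy
    · exact hcub0 (-y) (by linear_combination - hy)
    · have hy0 : y ≠ 0 := by
        rintro rfl
        apply pow_ne_zero 2 hc00
        linear_combination hy
      apply hcub0 (- c0 / y)
      rw [div_pow, hy]
      field_simp
  have fin : ∀ c : F, (c = c0 ∨ c = - c0 ∨ c = - c0 ^ 2) → IsSquare (c ^ 2 - c + 1) →
      ∃ τ w : F, ParC τ w := by
    intro c hcc hs
    obtain ⟨s, hs⟩ := hs
    exact ⟨c - 1 + s, w, cex_aux F hSQO h2 h3 hsq w c0 c s hw hgen hc00 hcc (hcub c hcc)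
      (by rw [hs]; ring) (hNz c hcc)⟩
  rcases hsqr with h | h | h
  · exact fin _ (Or.inl rfl) h
  · exact fin _ (Or.inr (Or.inl rfl)) h
  · exact fin _ (Or.inr (Or.inr rfl)) h

end Pool.Agent.H52.SCG2
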