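import Pool.Agent.H24.SCG2.Base3

/-!
Project SCG2, module DGE: the group generated is everything.
-/

namespace Pool.Agent.H52.SCG2

open Matrix Pool.SCG

/-- in a cyclic group of order divisible by three: if `r` is not a cube then every element is
`y ^ 3 * r ^ i` -/
theorem dge_cube {C : Type*} [CommGroup C] [IsCyclic C] (r : C)
    (hr : ∀ y : C, y ^ 3 ≠ r) (x : C) : ∃ (y : C) (i : ℤ), y ^ 3 * r ^ i = x := by
  obtain ⟨g, hg⟩ := IsCyclic.exists_generator (α := C)
  obtain ⟨m, rfl⟩ := Subgroup.mem_zpowers_iff.1 (hg r)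
  obtain ⟨n, rfl⟩ := Subgroup.mem_zpowers_iff.1 (hg x)
  have h3 : ¬ (3 : ℤ) ∣ m := by
    rintro ⟨k, rfl⟩
    apply hr (g ^ k)
    rw [← _root_.zpow_natCast, ← _root_.zpow_mul]
    congr 1
    push_cast
    ring
  -- n = 3 a + m i
  have h4 : m % 3 = 1 ∨ m % 3 = 2 := by omega
  obtain ⟨a, i, hai⟩ : ∃ a i : ℤ, a * 3 + m * i = n := by
    rcases h4 with h4 | h4
    · refine ⟨n - (m / 3) * n - n + 0 * n, n, ?_⟩
      have e : m = 3 * (m / 3) + 1 := by omega
      generalize m / 3 = k at *
      subst e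
      ring
    · refine ⟨n + (m / 3) * n, - n, ?_⟩
      have e : m = 3 * (m / 3) + 2 := by omega
      generalize m / 3 = k at *
      subst e
      ring
  refine ⟨g ^ a, i, ?_⟩
  rw [← _root_.zpow_natCast, ← _root_.zpow_mul, ← _root_.zpow_mul, ← _root_.zpow_add]
  congr 1

theorem dge_thm : DGEStmt := by
  intro F _ _ hodd H a b A B hInn hHD ha hb hA hB hnc
  apply le_antisymm hHD
  obtain ⟨P, rfl, haP⟩ := hA
  obtain ⟨Q, rfl, hbQ⟩ := hB
  simp only [if_true] at haP hbQ
  -- R = gt P * Q
  have hR : diagAut (gt P * Q) ∈ H := by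
    have e : a * b = diagAut (gt P * Q) := by
      rw [haP, hbQ, diagAut_mul, mul_assoc, ← mul_assoc (diagAut P), diagAut_graph, ← mul_assoc,
        ← mul_assoc, graph_mul_graph, one_mul]
    rw [← e]
    exact mul_mem ha hb
  -- all diagAut
  have hdiag : ∀ X : GL (Fin 3) F, diagAut X ∈ H := by
    intro X
    set R := gt P * Q with hRdef
    have hdR : Matrix.GeneralLinearGroup.det R =
        (Matrix.GeneralLinearGroup.det P)⁻¹ * Matrix.GeneralLinearGroup.det Q := by
      rw [hRdef, map_mul]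
      congr 1
      rw [← map_inv]
      apply Units.ext
      show (gt P : M3 F).det = ((P⁻¹ : GL (Fin 3) F) : M3 F).det
      rw [gt_coe, Matrix.det_transpose]
    have hncR : ∀ y : Fˣ, y ^ 3 ≠ Matrix.GeneralLinearGroup.det R := by
      intro y hy
      rw [hdR] at hy
      apply hnc (y : F)
      have h1 : y ^ 3 * Matrix.GeneralLinearGroup.det P = Matrix.GeneralLinearGroup.det Q := by
        rw [hy, mul_comm, mul_inv_cancel_left]
      have h2 := congrArg (fun u : Fˣ => (u : F)) h1
      simpa using h2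
    obtain ⟨y, i, hyi⟩ := dge_cube _ hncR (Matrix.GeneralLinearGroup.det X)
    -- the matrix S = y⁻¹ X R^{-i} has determinant one
    set Y : GL (Fin 3) F := Matrix.GeneralLinearGroup.scalar (Fin 3) y with hY
    have hdY : Matrix.GeneralLinearGroup.det Y = y ^ 3 := by
      apply Units.ext
      simp [hY]
    have hS : Matrix.GeneralLinearGroup.det (Y⁻¹ * X * (R ^ i)⁻¹) = 1 := by
      rw [map_mul, map_mul, map_inv, map_inv, map_zpow, hdY, ← hyi]
      group
    have hS' : ((Y⁻¹ * X * (R ^ i)⁻¹ : GL (Fin 3) F) : M3 F).det = 1 := by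
      have := congrArg (fun u : Fˣ => (u : F)) hS
      rw [Units.val_one] at this
      exact this
    have h1 : diagAut (Y⁻¹ * X * (R ^ i)⁻¹) ∈ H := by
      rw [diagAut_sl ⟨_, hS'⟩ (Y⁻¹ * X * (R ^ i)⁻¹) rfl]
      exact hInn ⟨_, rfl⟩
    have h2 : diagAut Y = 1 := by
      refine (diagAut_eq_one_iff Y).2 ⟨(y : F), ?_⟩
      ext i j
      simp [hY, Matrix.smul_apply, Matrix.one_apply, Matrix.diagonal_apply]
    have h3 : diagAut (R ^ i) ∈ H := by
      have e : ∀ n : ℕ, diagAut (R ^ n) = (diagAut R) ^ n := by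
        intro n
        induction n with
        | zero => rw [pow_zero, pow_zero, diagAut_one]
        | succ n ih => rw [pow_succ, pow_succ, diagAut_mul, ih]
      cases i with
      | ofNat n =>
        rw [Int.ofNat_eq_natCast, zpow_natCast, e]
        exact pow_mem hR n
      | negSucc n =>
        rw [zpow_negSucc, ← diagAut_inv, e]
        exact inv_mem (pow_mem hR _)
    have e : X = Y * (Y⁻¹ * X * (R ^ i)⁻¹) * R ^ i := by group
    rw [e, diagAut_mul, diagAut_mul, h2, one_mul]
    exact mul_mem h1 h3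
  have hgraph : graphAut F ∈ H := by
    have e : graphAut F = a * (diagAut P)⁻¹ := by rw [haP, mul_inv_cancel_right]
    rw [e]
    exact mul_mem ha (inv_mem (hdiag P))
  rw [DiagExt, Subgroup.closure_le]
  rintro x (⟨X, rfl⟩ | hx)
  · exact hdiag X
  · rw [Set.mem_singleton_iff] at hx
    rw [hx]
    exact hgraph

end Pool.Agent.H52.SCG2
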