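import Pool.Agent.H24.SCG2.Stmts3

/-!
Project SCG2, module EXZ2: existence in rank four for the group `PGL(3,q).2` (assembly).
-/

namespace Pool.Agent.H52.SCG2

open Matrix Pool.SCG

theorem exz2_range {G : Type} [Group G] (a b c d : G) :
    Set.range ![a, b, c, d] = ({a, b, c, d} : Set G) := by
  ext x
  simp only [Set.mem_range, Set.mem_insert_iff, Set.mem_singleton_iff]
  constructor
  · rintro ⟨i, rfl⟩
    fin_cases i <;> simp
  · rintro (rfl | rfl | rfl | rfl)
    · exact ⟨0, rfl⟩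
    · exact ⟨1, rfl⟩
    · exact ⟨2, rfl⟩
    · exact ⟨3, rfl⟩

theorem exz2_thm (hPAR : PARStmt) (hST4B : ST4BStmt) (hDGE : DGEStmt) (hCEX : CEXStmt)
    (hCGR : CGRStmt) (hCGS : CGSStmt) (hCGI : CGIStmt) (hCGG : CGGStmt) (hQ7R : Q7RStmt)
    (hQ7S : Q7SStmt) (hQ7I : Q7IStmt) (hQ7G : Q7GStmt) : EXZ2Stmt := by
  intro F _ _ hodd
  obtain ⟨p, -, -, -, h2, h3, -⟩ := hPAR F hodd
  by_cases hc7 : Nat.card F = 7
  · classical
    have : Fintype F := Fintype.ofFinite F
    have h7 : (7 : F) = 0 := by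
      have := Nat.cast_card_eq_zero F
      rw [← Nat.card_eq_fintype_card, hc7] at this
      exact_mod_cast this
    obtain ⟨a, b, c, d, hG, ha, hb, hc, hd, a1, b1, c1, d1, aa, bb, cc, dd, ac, ad, bd, ab, bc,
      cd⟩ := hQ7R F h7
    obtain ⟨s1, s2⟩ := hQ7S F h7 a b c d hG
    have i3 := hQ7I F hc7 a b c d hG
    have g := hQ7G F hc7 a b c d hG
    have hS := hST4B (MulAut (SL3 F)) a b c d a1 b1 c1 d1 aa bb cc dd ac ad bd ab bc cd s1 s2 i3
    refine ⟨![a, b, c, d], hS, ?_⟩
    rw [exz2_range]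
    refine hDGE F hodd _ a b _ _ (g.trans (Subgroup.closure_mono ?_)) ?_
      (Subgroup.subset_closure (by simp)) (Subgroup.subset_closure (by simp)) hG.ha hG.hb ?_
    · intro x hx
      exact Set.mem_insert_of_mem _ hx
    · rw [Subgroup.closure_le]
      rintro x (rfl | rfl | rfl | rfl)
      · exact ha
      · exact hb
      · exact hc
      · exact hd
    · intro y hy
      have e1 : (dg (-1) 2 2 : Matrix (Fin 3) (Fin 3) F).det = -4 := by
        simp [dg, Matrix.det_fin_three]
        norm_num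
      have e2 : (dg (-1) 2 4 : Matrix (Fin 3) (Fin 3) F).det = -8 := by
        simp [dg, Matrix.det_fin_three]
        norm_num
      rw [e1, e2] at hy
      have hone : (1 : F) ≠ 0 := one_ne_zero
      have hy3 : y ^ 3 = 2 := by linear_combination (-2) * hy + (y ^ 3 - 2) * (- h7)
      have hy0 : y ≠ 0 := by
        rintro rfl
        apply h2
        rw [← hy3]
        ring
      have hy6 : y ^ 6 = 1 := by
        have := FiniteField.pow_card_sub_one_eq_one y hy0
        rwa [← Nat.card_eq_fintype_card, hc7] at this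
      have h33 : (3 : F) = 0 := by linear_combination (- y ^ 3 - 2) * hy3 + hy6
      exact h3 h33
  · obtain ⟨τ, w, hP⟩ := hCEX F hodd hc7
    obtain ⟨a, b, c, d, hG, ha, hb, hc, hd, a1, b1, c1, d1, aa, bb, cc, dd, ac, ad, bd, ab, bc,
      cd⟩ := hCGR F τ w h2 h3 hP
    obtain ⟨s1, s2⟩ := hCGS F τ w h2 h3 hP a b c d hG
    have i3 := hCGI F τ w h2 h3 hP a b c d hG
    have g := hCGG F hodd τ w hP a b c d hG
    have hS := hST4B (MulAut (SL3 F)) a b c d a1 b1 c1 d1 aa bb cc dd ac ad bd ab bc cd s1 s2 i3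
    refine ⟨![a, b, c, d], hS, ?_⟩
    rw [exz2_range]
    refine hDGE F hodd _ a b _ _ g ?_
      (Subgroup.subset_closure (by simp)) (Subgroup.subset_closure (by simp)) hG.ha hG.hb ?_
    · rw [Subgroup.closure_le]
      rintro x (rfl | rfl | rfl | rfl)
      · exact ha
      · exact hb
      · exact hc
      · exact hd
    · intro y hy
      have e1 : (!![1, -(τ + 1), -(τ + 1); -(τ + 1), 1, -(τ + 1); -(τ + 1), -(τ + 1), 1] :
          Matrix (Fin 3) (Fin 3) F).det = -((τ + 2) ^ 2 * (2 * τ + 1)) := by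
        simp [Matrix.det_fin_three]
        ring
      have e2 : (!![0, 1, 0; 1, 0, 0; 0, 0, τ] : Matrix (Fin 3) (Fin 3) F).det = -τ := by
        simp [Matrix.det_fin_three]
      rw [e1, e2] at hy
      apply hP.nc (y * (τ + 2))
      linear_combination (-(τ + 2)) * hy

end Pool.Agent.H52.SCG2
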