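import Pool.Agent.H24.SCG2.Stmts1

/-!
Project SCG2, module W1: generation from unipotent elements.
-/

namespace Pool.Agent.H52.SCG2

open Matrix Pool.SCG

section base

variable {F : Type} [Field F] {H : Subgroup (Cor F)}

theorem InM_mul {A B : M3 F} (hA : InM H A) (hB : InM H B) : InM H (A * B) := by
  obtain ⟨x, hx, hx'⟩ := hA
  obtain ⟨y, hy, hy'⟩ := hB
  exact ⟨x * y, H.mul_mem hx hy, hx'.mul_inner hy'⟩

theorem InM_inv {A B : M3 F} (hA : InM H A) (h : A * B = 1) : InM H B := by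
  obtain ⟨x, hx, hx'⟩ := hA
  refine ⟨x⁻¹, H.inv_mem hx, ?_⟩
  have := hx'.inv_inner
  rwa [adj_unique hx'.det h] at this

/-- the prime field -/
def Pr (t : F) : Prop := ∃ n : ℤ, (n : F) = t

theorem Pr_add {s t : F} (hs : Pr s) (ht : Pr t) : Pr (s + t) := by
  obtain ⟨n, rfl⟩ := hs
  obtain ⟨m, rfl⟩ := ht
  exact ⟨n + m, by push_cast; ring⟩

theorem Pr_mul {s t : F} (hs : Pr s) (ht : Pr t) : Pr (s * t) := by
  obtain ⟨n, rfl⟩ := hs
  obtain ⟨m, rfl⟩ := ht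
  exact ⟨n * m, by push_cast; ring⟩

theorem Pr_neg {s : F} (hs : Pr s) : Pr (-s) := by
  obtain ⟨n, rfl⟩ := hs
  exact ⟨-n, by push_cast; ring⟩

theorem Pr_one : Pr (1 : F) := ⟨1, by simp⟩

theorem Pr_two : Pr (2 : F) := ⟨2, by simp⟩

theorem Pr_inv_two [Finite F] (h2 : (2 : F) ≠ 0) : Pr ((2 : F)⁻¹) := by
  have := Fintype.ofFinite F
  have h := FiniteField.pow_card_sub_one_eq_one (2 : F) h2
  have hc : 1 < Fintype.card F := Fintype.one_lt_card
  refine ⟨2 ^ (Fintype.card F - 2), ?_⟩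
  have h3 : (2 : F) ^ (Fintype.card F - 2) * 2 = 1 := by
    rw [← pow_succ, ← h]
    congr 1
    omega
  push_cast
  exact eq_inv_of_mul_eq_one_left h3

def e12 (t : F) : M3 F := !![1, t, 0; 0, 1, 0; 0, 0, 1]
def e13 (t : F) : M3 F := !![1, 0, t; 0, 1, 0; 0, 0, 1]
def e23 (t : F) : M3 F := !![1, 0, 0; 0, 1, t; 0, 0, 1]
def e21 (t : F) : M3 F := !![1, 0, 0; t, 1, 0; 0, 0, 1]
def e31 (t : F) : M3 F := !![1, 0, 0; 0, 1, 0; t, 0, 1]
def e32 (t : F) : M3 F := !![1, 0, 0; 0, 1, 0; 0, t, 1]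

/-- first row -/
def fr (u v : F) : M3 F := !![1, u, v; 0, 1, 0; 0, 0, 1]
/-- first column -/
def fc (u v : F) : M3 F := !![1, 0, 0; u, 1, 0; v, 0, 1]

theorem fr_mul (u v u' v' : F) : fr u v * fr u' v' = fr (u + u') (v + v') := by
  ext i j
  fin_cases i <;> fin_cases j <;> simp [fr, Matrix.mul_apply, Fin.sum_univ_three] <;> ring

theorem fc_mul (u v u' v' : F) : fc u v * fc u' v' = fc (u + u') (v + v') := by
  ext i j
  fin_cases i <;> fin_cases j <;> simp [fc, Matrix.mul_apply, Fin.sum_univ_three]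

theorem fr_neg {u v : F} (h : InM H (fr u v)) : InM H (fr (-u) (-v)) := by
  refine InM_inv h ?_
  rw [fr_mul]
  ext i j
  fin_cases i <;> fin_cases j <;> simp [fr]

theorem fc_neg {u v : F} (h : InM H (fc u v)) : InM H (fc (-u) (-v)) := by
  refine InM_inv h ?_
  rw [fc_mul]
  ext i j
  fin_cases i <;> fin_cases j <;> simp [fc]

theorem fr_add {u v u' v' : F} (h : InM H (fr u v)) (h' : InM H (fr u' v')) :
    InM H (fr (u + u') (v + v')) := by
  rw [← fr_mul]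
  exact InM_mul h h'

theorem fc_add {u v u' v' : F} (h : InM H (fc u v)) (h' : InM H (fc u' v')) :
    InM H (fc (u + u') (v + v')) := by
  rw [← fc_mul]
  exact InM_mul h h'

/-- the matrix `z` -/
def zm (F : Type) [Field F] : M3 F := !![1, -1, 3; 0, -1, 0; 0, 0, -1]

theorem z_id (h2 : (2 : F) ≠ 0) (s : F) :
    zm F * Uc s * zm F * Uc (-s) = fr (-(2 * s)) (s ^ 2 + s) := by
  ext i j
  fin_cases i <;> fin_cases j <;>
    simp [zm, Uc, fr, Matrix.mul_apply, Fin.sum_univ_three] <;> field_simp <;> ring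

/-- upper triangular unipotent elements -/
theorem upper [Finite F] (h2 : (2 : F) ≠ 0) (hU : ∀ t : F, Pr t → InM H (Uc t))
    (hz : InM H (zm F)) :
    (∀ u v : F, Pr u → Pr v → InM H (fr u v)) ∧ ∀ t : F, Pr t → InM H (e23 t) := by
  have hh := Pr_inv_two (F := F) h2
  have hM : ∀ s : F, Pr s → InM H (fr (-(2 * s)) (s ^ 2 + s)) := by
    intro s hs
    rw [← z_id h2 s]
    exact InM_mul (InM_mul (InM_mul hz (hU s hs)) hz) (hU _ (Pr_neg hs))
  have h13 : ∀ t : F, Pr t → InM H (fr 0 t) := by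
    intro t ht
    have hs := hh
    have a1 := hM _ hs
    have a2 := hM _ ht
    have a3 := hM _ (Pr_neg (Pr_add hs ht))
    have b1 := hM _ (Pr_neg hs)
    have b2 := hM _ (Pr_neg ht)
    have c1 := fr_neg (fr_add a1 b1)
    have c2 := fr_neg (fr_add a2 b2)
    have d := fr_add (fr_add (fr_add (fr_add a1 a2) a3) c1) c2
    have e : fr (0 : F) t = fr (-(2 * 2⁻¹) + -(2 * t) + -(2 * -(2⁻¹ + t)) +
        -(-(2 * 2⁻¹) + -(2 * -2⁻¹)) + -(-(2 * t) + -(2 * -t)))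
        ((2⁻¹ ^ 2 + 2⁻¹ + (t ^ 2 + t) + ((-(2⁻¹ + t)) ^ 2 + -(2⁻¹ + t)) +
        -(2⁻¹ ^ 2 + 2⁻¹ + ((-2⁻¹) ^ 2 + -2⁻¹)) + -(t ^ 2 + t + ((-t) ^ 2 + -t)))) := by
      congr 1
      · ring
      · field_simp
        ring
    rw [e]
    exact d
  have hfr : ∀ u v : F, Pr u → Pr v → InM H (fr u v) := by
    intro u v hu hv
    have hs : Pr (-(2⁻¹ * u)) := Pr_neg (Pr_mul hh hu)
    have a1 := hM _ hs
    have hw : Pr (v + -((-(2⁻¹ * u)) ^ 2 + -(2⁻¹ * u))) := by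
      refine Pr_add hv (Pr_neg (Pr_add ?_ hs))
      rw [sq]
      exact Pr_mul hs hs
    have d := fr_add a1 (h13 _ hw)
    have e : fr u v = fr (-(2 * -(2⁻¹ * u)) + 0) ((-(2⁻¹ * u)) ^ 2 + -(2⁻¹ * u) +
        (v + -((-(2⁻¹ * u)) ^ 2 + -(2⁻¹ * u)))) := by
      congr 1
      · field_simp
        ring
      · ring
    rw [e]
    exact d
  refine ⟨hfr, fun t ht => ?_⟩
  have hu : Pr (t ^ 2 * 2⁻¹) := by
    rw [sq]
    exact Pr_mul (Pr_mul ht ht) hh
  have e : e23 t = fr (-t) (t ^ 2 * 2⁻¹) * Uc t := by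
    ext i j
    fin_cases i <;> fin_cases j <;>
      simp [e23, Uc, fr, Matrix.mul_apply, Fin.sum_univ_three]
    field_simp
    ring
  rw [e]
  exact InM_mul (hfr _ _ (Pr_neg ht) hu) (hU t ht)

theorem lower_sub [Finite F] (h2 : (2 : F) ≠ 0) (hL : ∀ t : F, Pr t → InM H (Lc t))
    (h32 : ∀ t : F, Pr t → InM H (e32 t)) (s : F) (hs : Pr s) :
    InM H (fc (2 * s) (-(2 * s ^ 2))) := by
  have e : fc (2 * s) (-(2 * s ^ 2)) = e32 (-(2 * s)) * Lc s := by
    ext i j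
    fin_cases i <;> fin_cases j <;>
      simp [e32, Lc, fc, Matrix.mul_apply, Fin.sum_univ_three]
    ring
  rw [e]
  exact InM_mul (h32 _ (Pr_neg (Pr_mul Pr_two hs))) (hL s hs)

end base

theorem w1_thm : Pool.SCG.W1Stmt := by
  intro F _ _ h2 H hU hL hCU hCL
  have hh := Pr_inv_two (F := F) h2
  have hU' : ∀ t : F, Pr t → InM H (Uc t) := by
    rintro t ⟨n, rfl⟩
    exact hU n
  have hL' : ∀ t : F, Pr t → InM H (Lc t) := by
    rintro t ⟨n, rfl⟩
    exact hL n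
  have hCU' : ∀ t : F, Pr t → InM H (Cm F * Uc t * (Cm F).transpose) := by
    rintro t ⟨n, rfl⟩
    exact hCU n
  have hCL' : ∀ t : F, Pr t → InM H (Cm F * Lc t * (Cm F).transpose) := by
    rintro t ⟨n, rfl⟩
    exact hCL n
  have eCU : ∀ t : F, Cm F * Uc t * (Cm F).transpose =
      !![1, 0, 0; -(t ^ 2 * 2⁻¹), 1, -t; t, 0, 1] := by
    intro t
    ext i j
    fin_cases i <;> fin_cases j <;>
      simp [Cm, Uc, Matrix.mul_apply, Fin.sum_univ_three]
  have eCL : ∀ t : F, Cm F * Lc t * (Cm F).transpose =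
      !![1, -(2 * t ^ 2), 2 * t; 0, 1, 0; 0, -(2 * t), 1] := by
    intro t
    ext i j
    fin_cases i <;> fin_cases j <;>
      simp [Cm, Lc, Matrix.mul_apply, Fin.sum_univ_three]
  have hz : InM H (zm F) := by
    have e : zm F = (Uc 1 * (Cm F * Lc (2⁻¹ : F) * (Cm F).transpose) * Uc 1) *
        (Uc 1 * (Cm F * Lc (2⁻¹ : F) * (Cm F).transpose) * Uc 1) := by
      rw [eCL]
      have e1 : Uc 1 * !![1, -(2 * (2⁻¹ : F) ^ 2), 2 * 2⁻¹; 0, 1, 0; 0, -(2 * 2⁻¹), 1] * Uc 1 =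
          !![1, 1, 2; 0, 0, 1; 0, -1, 0] := by
        ext i j
        fin_cases i <;> fin_cases j <;>
          simp [Uc, Matrix.mul_apply, Fin.sum_univ_three] <;> field_simp <;> ring
      rw [e1]
      ext i j
      fin_cases i <;> fin_cases j <;>
        simp [zm, Matrix.mul_apply, Fin.sum_univ_three] <;> ring
    rw [e]
    have h1 := InM_mul (InM_mul (hU' 1 Pr_one) (hCL' _ hh)) (hU' 1 Pr_one)
    exact InM_mul h1 h1
  obtain ⟨hfr, h23⟩ := upper h2 hU' hz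
  have h32 : ∀ t : F, Pr t → InM H (e32 t) := by
    intro t ht
    have hs : Pr (-(2⁻¹ * t)) := Pr_neg (Pr_mul hh ht)
    have h1 := hCL' _ hs
    have e : e32 t = fr (-(t ^ 2 * 2⁻¹)) 0 * fr 0 t *
        (Cm F * Lc (-(2⁻¹ * t)) * (Cm F).transpose) := by
      rw [eCL]
      ext i j
      fin_cases i <;> fin_cases j <;>
        simp [e32, fr, Matrix.mul_apply, Fin.sum_univ_three] <;> field_simp <;> ring
    rw [e]
    have hp : Pr (-(t ^ 2 * 2⁻¹)) := by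
      rw [sq]
      exact Pr_neg (Pr_mul (Pr_mul ht ht) hh)
    have h0 : Pr (0 : F) := ⟨0, by simp⟩
    exact InM_mul (InM_mul (hfr _ _ hp h0) (hfr _ _ h0 ht)) h1
  have hN : ∀ s : F, Pr s → InM H (fc (-(s ^ 2 * 2⁻¹)) s) := by
    intro s hs
    have e : fc (-(s ^ 2 * 2⁻¹)) s = (Cm F * Uc s * (Cm F).transpose) * e23 s := by
      rw [eCU]
      ext i j
      fin_cases i <;> fin_cases j <;>
        simp [e23, fc, Matrix.mul_apply, Fin.sum_univ_three]
    rw [e]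
    exact InM_mul (hCU' s hs) (h23 s hs)
  -- the elements `e21`
  have hsq : ∀ s : F, Pr s → InM H (fc (-(s ^ 2)) 0) := by
    intro s hs
    have d := fc_add (hN s hs) (hN (-s) (Pr_neg hs))
    have e : fc (-(s ^ 2)) (0 : F) = fc (-(s ^ 2 * 2⁻¹) + -((-s) ^ 2 * 2⁻¹)) (s + -s) := by
      congr 1
      · field_simp
        ring
      · ring
    rw [e]
    exact d
  have h21 : ∀ t : F, Pr t → InM H (fc t 0) := by
    intro t ht
    have hs : Pr (-(2⁻¹ : F)) := Pr_neg hh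
    have a1 := hsq _ (Pr_add hs ht)
    have a2 := fc_neg (hsq _ hs)
    have a3 := fc_neg (hsq _ ht)
    have d := fc_add (fc_add a1 a2) a3
    have e : fc t (0 : F) = fc (-((-(2⁻¹ : F) + t) ^ 2) + - -((-(2⁻¹ : F)) ^ 2) + - -(t ^ 2))
        (0 + -0 + -0) := by
      congr 1
      · field_simp
        ring
      · ring
    rw [e]
    exact d
  have e : Cm F = e12 (-1) * fc 1 0 * e12 (-1) * (e23 1 * e32 (-1) * e23 1) := by
    ext i j
    fin_cases i <;> fin_cases j <;>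
      simp [Cm, e12, e23, e32, fc, Matrix.mul_apply, Fin.sum_univ_three]
  have h12 : InM H (e12 (-1 : F)) := hfr (-1) 0 (Pr_neg Pr_one) ⟨0, by simp⟩
  rw [e]
  exact InM_mul (InM_mul (InM_mul h12 (h21 1 Pr_one)) h12)
    (InM_mul (InM_mul (h23 1 Pr_one) (h32 _ (Pr_neg Pr_one))) (h23 1 Pr_one))

end Pool.Agent.H52.SCG2
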