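import Pool.Agent.H52.SCG2.W1

/-!
Project SCG2, module W2: generation from unipotent elements and `Jm`.
-/

namespace Pool.Agent.H52.SCG2

open Matrix Pool.SCG

theorem w2_thm : Pool.SCG.W2Stmt := by
  intro F _ _ h2 H hU hL hJ
  have hh := Pr_inv_two (F := F) h2
  have h0 : Pr (0 : F) := ⟨0, by simp⟩
  have hU' : ∀ t : F, Pr t → InM H (Uc t) := by
    rintro t ⟨n, rfl⟩
    exact hU n
  have hL' : ∀ t : F, Pr t → InM H (Lc t) := by
    rintro t ⟨n, rfl⟩
    exact hL n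
  have hz : InM H (zm F) := by
    have e : zm F = (Uc 1 * (Jm F * Uc (-1) * Jm F) * Uc 1) *
        (Uc 1 * (Jm F * Uc (-1) * Jm F) * Uc 1) := by
      have e1 : Uc 1 * (Jm F * Uc (-1) * Jm F) * Uc 1 =
          !![1, 1, 2; 0, 0, 1; 0, -1, 0] := by
        ext i j
        fin_cases i <;> fin_cases j <;>
          simp [Uc, Jm, Matrix.mul_apply, Fin.sum_univ_three] <;> field_simp <;> ring
      rw [e1]
      ext i j
      fin_cases i <;> fin_cases j <;>
        simp [zm, Matrix.mul_apply, Fin.sum_univ_three] <;> ring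
    rw [e]
    have h1 := InM_mul (InM_mul (hU' 1 Pr_one)
      (InM_mul (InM_mul hJ (hU' (-1) (Pr_neg Pr_one))) hJ)) (hU' 1 Pr_one)
    exact InM_mul h1 h1
  obtain ⟨hfr, h23⟩ := upper h2 hU' hz
  have h32 : ∀ t : F, Pr t → InM H (e32 t) := by
    intro t ht
    have e : e32 t = Jm F * e23 t * Jm F := by
      ext i j
      fin_cases i <;> fin_cases j <;>
        simp [e32, e23, Jm, Matrix.mul_apply, Fin.sum_univ_three]
    rw [e]
    exact InM_mul (InM_mul hJ (h23 t ht)) hJ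
  have hN := lower_sub h2 hL' h32
  have hsq : ∀ s : F, Pr s → InM H (fc 0 (-(4 * s ^ 2))) := by
    intro s hs
    have d := fc_add (hN s hs) (hN (-s) (Pr_neg hs))
    have e : fc (0 : F) (-(4 * s ^ 2)) = fc (2 * s + 2 * -s)
        (-(2 * s ^ 2) + -(2 * (-s) ^ 2)) := by
      congr 1 <;> ring
    rw [e]
    exact d
  have h31 : ∀ t : F, Pr t → InM H (fc 0 t) := by
    intro t ht
    have hs : Pr (-(2⁻¹ * 2⁻¹ * 2⁻¹ : F)) := Pr_neg (Pr_mul (Pr_mul hh hh) hh)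
    have a1 := hsq _ (Pr_add hs ht)
    have a2 := fc_neg (hsq _ hs)
    have a3 := fc_neg (hsq _ ht)
    have d := fc_add (fc_add a1 a2) a3
    have e : fc (0 : F) t = fc (0 + -0 + -0) (-(4 * (-(2⁻¹ * 2⁻¹ * 2⁻¹ : F) + t) ^ 2) +
        - -(4 * (-(2⁻¹ * 2⁻¹ * 2⁻¹ : F)) ^ 2) + - -(4 * t ^ 2)) := by
      congr 1
      · ring
      · field_simp
        ring
    rw [e]
    exact d
  have h21 : ∀ t : F, Pr t → InM H (fc t 0) := by
    intro t ht
    have hs : Pr (2⁻¹ * t) := Pr_mul hh ht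
    have a1 := hN _ hs
    have a2 := h31 (2 * (2⁻¹ * t) ^ 2) (by
      rw [sq]
      exact Pr_mul Pr_two (Pr_mul hs hs))
    have d := fc_add a1 a2
    have e : fc t (0 : F) = fc (2 * (2⁻¹ * t) + 0)
        (-(2 * (2⁻¹ * t) ^ 2) + 2 * (2⁻¹ * t) ^ 2) := by
      congr 1
      · field_simp
        ring
      · ring
    rw [e]
    exact d
  have h12 : InM H (fr (-1 : F) 0) := hfr (-1) 0 (Pr_neg Pr_one) h0
  have h13 : InM H (fr 0 (-1 : F)) := hfr 0 (-1) h0 (Pr_neg Pr_one)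
  have hA : InM H (fr (-1 : F) 0 * fc 1 0 * fr (-1) 0) :=
    InM_mul (InM_mul h12 (h21 1 Pr_one)) h12
  have hB : InM H (fr 0 (-1 : F) * fc 0 1 * fr 0 (-1)) :=
    InM_mul (InM_mul h13 (h31 1 Pr_one)) h13
  have e : Q0 F = (fr (-1 : F) 0 * fc 1 0 * fr (-1) 0) * (fr (-1 : F) 0 * fc 1 0 * fr (-1) 0) *
      (fr 0 (-1 : F) * fc 0 1 * fr 0 (-1)) := by
    ext i j
    fin_cases i <;> fin_cases j <;>
      simp [Q0, fr, fc, Matrix.mul_apply, Fin.sum_univ_three]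
  rw [e]
  exact InM_mul (InM_mul hA hA) hB

end Pool.Agent.H52.SCG2
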