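import Pool.Agent.H24.SCG2.Base2

/-!
Project SCG2, module LIF5: rescaling of the lifts.
-/

namespace Pool.Agent.H52.SCG2

open Matrix Pool.SCG

section

variable {K : Type} [Field K]

/-- commutation modulo scalars -/
def MZ (x y : Cor K) : Prop := ∃ z ∈ Zs K, x * y = z * (y * x)

theorem mz_iff {x y : Cor K} : MZ x y ↔ x * y * (y * x)⁻¹ ∈ Zs K := by
  constructor
  · rintro ⟨z, hz, h⟩
    rw [h, mul_inv_cancel_right]
    exact hz
  · intro h
    exact ⟨_, h, by rw [inv_mul_cancel_right]⟩

theorem mz_symm {x y : Cor K} (h : MZ x y) : MZ y x := by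
  obtain ⟨z, hz, h⟩ := h
  exact ⟨z⁻¹, zs_inv hz, by rw [h, inv_mul_cancel_left]⟩

theorem mz_right {x y z : Cor K} (h : MZ x y) (hz : z ∈ Zs K) : MZ x (y * z) := by
  obtain ⟨w, hw, h⟩ := h
  refine ⟨w * ((y * z * x) * (x⁻¹ * z⁻¹ * x * z) * (y * z * x)⁻¹), ?_, ?_⟩
  · exact zs_mul hw (zs_conj (zs_mul (zs_conj' (zs_inv hz) x) hz) _)
  · calc x * (y * z) = x * y * z := by group
      _ = w * (y * x) * z := by rw [h]
      _ = _ := by group

theorem mz_right' {x y y' : Cor K} (h : MZ x y) (hy : ∃ z ∈ Zs K, y' = y * z) : MZ x y' := by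
  obtain ⟨z, hz, rfl⟩ := hy
  exact mz_right h hz

theorem mz_left' {x x' y : Cor K} (h : MZ x y) (hx : ∃ z ∈ Zs K, x' = x * z) : MZ x' y :=
  mz_symm (mz_right' (mz_symm h) hx)

theorem zs_two {z : Cor K} (hz : z ∈ Zs K) (h : z * z = 1) : z = 1 := by
  have := zs_sq_inv hz
  rwa [h, mul_one] at this

/-- an inner involution commuting modulo scalars commutes -/
theorem comm_left {x y : Cor K} (hx : x.s = false) (hx2 : x * x = 1) (h : MZ x y) :
    x * y = y * x := by
  obtain ⟨z, hz, h⟩ := h
  have h1 : y⁻¹ * x * y = (y⁻¹ * z * y) * x := by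
    calc y⁻¹ * x * y = y⁻¹ * (x * y) := by group
      _ = y⁻¹ * (z * (y * x)) := by rw [h]
      _ = _ := by group
  have hw : y⁻¹ * z * y ∈ Zs K := zs_conj' hz y
  set w := y⁻¹ * z * y with hwd
  have h2 : (w * x) * (w * x) = 1 := by
    rw [← h1]
    calc y⁻¹ * x * y * (y⁻¹ * x * y) = y⁻¹ * (x * x) * y := by group
      _ = 1 := by rw [hx2]; group
  have h3 : w * w = 1 := by
    have e : (w * x) * (w * x) = w * w * (x * x) := by
      have := zs_comm hw hx
      calc (w * x) * (w * x) = w * (x * w) * x := by group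
        _ = w * (w * x) * x := by rw [this]
        _ = _ := by group
    rw [e, hx2, mul_one] at h2
    exact h2
  have h4 := zs_two hw h3
  rw [h4, one_mul] at h1
  calc x * y = y * (y⁻¹ * x * y) := by group
    _ = y * x := by rw [h1]

theorem comm_of_inner {x y : Cor K} (h : x.s = false ∨ y.s = false) (hx2 : x * x = 1)
    (hy2 : y * y = 1) (hm : MZ x y) : x * y = y * x := by
  rcases h with h | h
  · exact comm_left h hx2 hm
  · exact (comm_left h hy2 (mz_symm hm)).symm

/-- three outer involutions -/
theorem comm_three {x y w : Cor K} (hx : x.s = true) (hy : y.s = true) (hw : w.s = true)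
    (hx2 : x * x = 1) (hy2 : y * y = 1) (hw2 : w * w = 1) (hxy : x * y = y * x)
    (hxw : x * w = w * x) (h : MZ y w) : y * w = w * y := by
  have e1 : (x * y) * (x * w) = y * w := by
    rw [hxy]
    calc y * x * (x * w) = y * (x * x) * w := by group
      _ = y * w := by rw [hx2, mul_one]
  have e2 : (x * w) * (x * y) = w * y := by
    rw [hxw]
    calc w * x * (x * y) = w * (x * x) * y := by group
      _ = w * y := by rw [hx2, mul_one]
  have h1 : MZ (x * y) (x * w) := by
    obtain ⟨z, hz, h⟩ := h
    refine ⟨z, hz, ?_⟩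
    rw [e1, e2]
    exact h
  have s1 : (x * y).s = false := by
    rw [Cor.mul_s, hx, hy]
    rfl
  have h2 : (x * y) * (x * y) = 1 := by
    calc (x * y) * (x * y) = x * (y * x) * y := by group
      _ = x * (x * y) * y := by rw [hxy]
      _ = (x * x) * (y * y) := by group
      _ = 1 := by rw [hx2, hy2, one_mul]
  have h3 := comm_left s1 h2 h1
  rwa [e1, e2] at h3

/-- rescaling of `y` such that it commutes with `x` -/
theorem adj {x y : Cor K} (hx2 : x * x = 1) (hy2 : y * y = 1) (hy1 : y ≠ 1) (h : MZ x y) :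
    ∃ y' : Cor K, (∃ z ∈ Zs K, y' = y * z) ∧ y' ≠ 1 ∧ y' * y' = 1 ∧ y'.s = y.s ∧
      x * y' = y' * x := by
  by_cases hs : x.s = false ∨ y.s = false
  · exact ⟨y, ⟨1, zs_one, (mul_one y).symm⟩, hy1, hy2, rfl, comm_of_inner hs hx2 hy2 h⟩
  · push Not at hs
    have hx : x.s = true := by simpa using hs.1
    have hy : y.s = true := by simpa using hs.2
    obtain ⟨z, hz, h⟩ := h
    have hys : (y * z).s = true := by
      rw [Cor.mul_s, hy, zs_s hz]
      rfl
    refine ⟨y * z, ⟨z, hz, rfl⟩, ?_, ?_, ?_, ?_⟩
    · intro h1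
      rw [h1] at hys
      exact Bool.false_ne_true hys
    · have h1 := zs_outer hz hy
      calc y * z * (y * z) = y * (z * y) * z := by group
        _ = y * (y * z⁻¹) * z := by rw [h1]
        _ = y * y := by group
        _ = 1 := hy2
    · rw [hys, hy]
    · have h1 := zs_outer hz hx
      have hyx : (y * x).s = false := by
        rw [Cor.mul_s, hy, hx]
        rfl
      have h2 := zs_comm hz hyx
      have h3 := zs_sq_inv hz
      have h4 : z * z = z⁻¹ := by
        rw [eq_comm, inv_eq_of_mul_eq_one_right h3]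
      calc x * (y * z) = x * y * z := by group
        _ = z * (y * x) * z := by rw [h]
        _ = y * x * z * z := by rw [h2]
        _ = y * x * (z * z) := by group
        _ = y * (x * z⁻¹) := by rw [h4]; group
        _ = y * (z * x) := by rw [h1]
        _ = y * z * x := by group

end

theorem lif5_thm : Pool.SCG.LIF5Stmt := by
  intro K _ _ a b c d e ha hb hc hd he ha2 hb2 hc2 hd2 he2 hac had hae hbd hbe hce
  have triv : ∀ x : Cor K, ∃ z ∈ Zs K, x = x * z := fun x => ⟨1, zs_one, (mul_one x).symm⟩
  have hac' : MZ a c := hac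
  have had' : MZ a d := had
  have hae' : MZ a e := hae
  have hbd' : MZ b d := hbd
  have hbe' : MZ b e := hbe
  have hce' : MZ c e := hce
  by_cases sa : a.s = false
  · by_cases se : e.s = false
    · obtain ⟨b', hb', hb1, hb22, hbs, hdb⟩ := adj hd2 hb2 hb (mz_symm hbd')
      refine ⟨a, b', c, d, e, triv a, hb', triv c, triv d, triv e, ?_⟩
      exact
        { ia := ⟨ha, ha2⟩
          ib := ⟨hb1, hb22⟩
          ic := ⟨hc, hc2⟩
          id := ⟨hd, hd2⟩
          ie := ⟨he, he2⟩
          ac := comm_of_inner (Or.inl sa) ha2 hc2 hac'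
          ad := comm_of_inner (Or.inl sa) ha2 hd2 had'
          ae := comm_of_inner (Or.inl sa) ha2 he2 hae'
          bd := mz_left' hbd' hb'
          bdx := fun _ => hdb.symm
          be := comm_of_inner (Or.inr se) hb22 he2 (mz_left' hbe' hb')
          ce := comm_of_inner (Or.inr se) hc2 he2 hce' }
    · obtain ⟨c', hc', hc1, hc22, hcs, hec⟩ := adj he2 hc2 hc (mz_symm hce')
      obtain ⟨b', hb', hb1, hb22, hbs, heb⟩ := adj he2 hb2 hb (mz_symm hbe')
      obtain ⟨d', hd', hd1, hd22, hds, hbd1⟩ := adj hb22 hd2 hd (mz_left' hbd' hb')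
      refine ⟨a, b', c', d', e, triv a, hb', hc', hd', triv e, ?_⟩
      exact
        { ia := ⟨ha, ha2⟩
          ib := ⟨hb1, hb22⟩
          ic := ⟨hc1, hc22⟩
          id := ⟨hd1, hd22⟩
          ie := ⟨he, he2⟩
          ac := comm_of_inner (Or.inl sa) ha2 hc22 (mz_right' hac' hc')
          ad := comm_of_inner (Or.inl sa) ha2 hd22 (mz_right' had' hd')
          ae := comm_of_inner (Or.inl sa) ha2 he2 hae'
          bd := mz_right' (mz_left' hbd' hb') hd'
          bdx := fun _ => hbd1
          be := heb.symm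
          ce := hec.symm }
  · have sa' : a.s = true := by simpa using sa
    by_cases se : e.s = false
    · obtain ⟨c', hc', hc1, hc22, hcs, hac1⟩ := adj ha2 hc2 hc hac'
      obtain ⟨d', hd', hd1, hd22, hds, had1⟩ := adj ha2 hd2 hd had'
      obtain ⟨b', hb', hb1, hb22, hbs, hdb⟩ := adj hd22 hb2 hb (mz_symm (mz_right' hbd' hd'))
      refine ⟨a, b', c', d', e, triv a, hb', hc', hd', triv e, ?_⟩
      exact
        { ia := ⟨ha, ha2⟩
          ib := ⟨hb1, hb22⟩
          ic := ⟨hc1, hc22⟩
          id := ⟨hd1, hd22⟩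
          ie := ⟨he, he2⟩
          ac := hac1
          ad := had1
          ae := comm_of_inner (Or.inr se) ha2 he2 hae'
          bd := mz_right' (mz_left' hbd' hb') hd'
          bdx := fun _ => hdb.symm
          be := comm_of_inner (Or.inr se) hb22 he2 (mz_left' hbe' hb')
          ce := comm_of_inner (Or.inr se) hc22 he2 (mz_left' hce' hc') }
    · have se' : e.s = true := by simpa using se
      obtain ⟨e', he', he1, he22, hes, hae1⟩ := adj ha2 he2 he hae'
      obtain ⟨c', hc', hc1, hc22, hcs, hac1⟩ := adj ha2 hc2 hc hac'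
      obtain ⟨d', hd', hd1, hd22, hds, had1⟩ := adj ha2 hd2 hd had'
      obtain ⟨b', hb', hb1, hb22, hbs, heb⟩ := adj he22 hb2 hb (mz_symm (mz_right' hbe' he'))
      have hes' : e'.s = true := hes.trans se'
      refine ⟨a, b', c', d', e', triv a, hb', hc', hd', he', ?_⟩
      exact
        { ia := ⟨ha, ha2⟩
          ib := ⟨hb1, hb22⟩
          ic := ⟨hc1, hc22⟩
          id := ⟨hd1, hd22⟩
          ie := ⟨he1, he22⟩
          ac := hac1
          ad := had1
          ae := hae1
          bd := mz_right' (mz_left' hbd' hb') hd'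
          bdx := by
            intro h
            refine comm_of_inner ?_ hb22 hd22 (mz_right' (mz_left' hbd' hb') hd')
            rcases h with h | h | h | h
            · exact absurd h sa
            · exact Or.inl h
            · exact Or.inr h
            · rw [hes'] at h
              exact absurd h (by decide)
          be := heb.symm
          ce := by
            have hm : MZ c' e' := mz_right' (mz_left' hce' hc') he'
            by_cases sc : c'.s = false
            · exact comm_of_inner (Or.inl sc) hc22 he22 hm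
            · have sc' : c'.s = true := by simpa using sc
              exact comm_three sa' sc' hes' ha2 hc22 he22 hac1 hae1 hm }

end Pool.Agent.H52.SCG2
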